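import Pool.Agent.MP_ea150c_mp.H20.SpecT

/-! The count upstairs away from `c = 0` is `q^2` times the count of the quotient. -/

namespace Pool.Agent.MP_ea150c_mp.H63La

open H49 H20

noncomputable section

variable {I τ ι : Type} {F : Type} [Field F]

theorem gshift_zero (x : Var I τ → F) : gshift 0 0 x = x := by
  funext y
  rcases y with ⟨v, t⟩ | t
  · fin_cases t <;> simp [gshift]
  · rfl

theorem gshift_c (n n' : F) (x : Var I τ → F) (v : I) :
    gshift n n' x (Sum.inl (v, 0)) = x (Sum.inl (v, 0)) := by simp [gshift]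

theorem gshift_a (n n' : F) (x : Var I τ → F) (v : I) :
    gshift n n' x (Sum.inl (v, 1)) = x (Sum.inl (v, 1)) - n' * x (Sum.inl (v, 0)) := by
  simp [gshift]

theorem gshift_d (n n' : F) (x : Var I τ → F) (v : I) :
    gshift n n' x (Sum.inl (v, 2)) = x (Sum.inl (v, 2)) - n * x (Sum.inl (v, 0)) := by
  simp [gshift]

variable [LinearOrder I] [Fintype I] [Fintype τ] [DecidableEq τ]

/-- extension by zero from the slice -/
def ex (j : I) (y : Sl τ j → F) : Var I τ → F :=
  fun x => if h : x ≠ Sum.inl (j, 1) ∧ x ≠ Sum.inl (j, 2) then y ⟨x, h⟩ else 0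

omit [Fintype I] [Fintype τ] in
theorem ex_val (j : I) (y : Sl τ j → F) (s : Sl τ j) : ex j y s.1 = y s := dif_pos s.2

omit [Fintype I] [Fintype τ] in
theorem ex_a (j : I) (y : Sl τ j → F) : ex j y (Sum.inl (j, 1)) = 0 := dif_neg fun h => h.1 rfl

omit [Fintype I] [Fintype τ] in
theorem ex_d (j : I) (y : Sl τ j → F) : ex j y (Sum.inl (j, 2)) = 0 := dif_neg fun h => h.2 rfl

omit [Fintype I] [Fintype τ] in
theorem ex_res (j : I) (x : Var I τ → F) (h1 : x (Sum.inl (j, 1)) = 0)
    (h2 : x (Sum.inl (j, 2)) = 0) : ex j (fun s => x s.1) = x := by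
  funext z
  by_cases h : z ≠ Sum.inl (j, 1) ∧ z ≠ Sum.inl (j, 2)
  · exact dif_pos h
  · have e : ex j (fun s => x s.1) z = 0 := dif_neg h
    rw [e]
    rcases not_and_or.1 h with h | h
    · rw [not_not.1 h, h1]
    · rw [not_not.1 h, h2]

omit [Fintype I] [Fintype τ] in
theorem eval_fS (M : Model I τ ι) (j : I) (i : ι) (y : Sl τ j → F) :
    MvPolynomial.eval₂ (Int.castRingHom F) y (M.fS j i) =
      MvPolynomial.eval₂ (Int.castRingHom F) (ex j y) (M.f i) := by
  have h := MvPolynomial.map_aeval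
    (fun x : Var I τ => if h : x ≠ Sum.inl (j, 1) ∧ x ≠ Sum.inl (j, 2) then
      (MvPolynomial.X ⟨x, h⟩ : MvPolynomial (Sl τ j) ℤ) else 0)
    (MvPolynomial.eval₂Hom (Int.castRingHom F) y) (M.f i)
  refine h.trans ?_
  rw [Subsingleton.elim ((MvPolynomial.eval₂Hom (Int.castRingHom F) y).comp _) (Int.castRingHom F)]
  refine congrArg (fun g => MvPolynomial.eval₂ (Int.castRingHom F) g (M.f i)) (funext fun x => ?_)
  unfold ex
  split_ifs <;> simp

theorem slice [Fintype F] (M : Model I τ ι)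
    (hM : ∀ i (n n' : F) (x : Var I τ → F),
      MvPolynomial.eval₂ (Int.castRingHom F) (gshift n n' x) (M.f i) =
        MvPolynomial.eval₂ (Int.castRingHom F) x (M.f i)) (J : Finset I) (j : I) (hj : j ∈ J) :
    cntAll M F (fun x => ∀ v ∈ J, x (Sum.inl (v, 0)) ≠ 0) = Fintype.card F ^ 2 *
      cnt (fun x : Sl τ j => ∃ v ∈ J, x.1 = Sum.inl (v, 0)) (M.fS j) F := by
  classical
  have hP : ∀ y : Sl τ j → F, (∀ s : Sl τ j, (∃ v ∈ J, s.1 = Sum.inl (v, 0)) → y s ≠ 0) ↔
      ∀ v ∈ J, ex j y (Sum.inl (v, 0)) ≠ 0 := by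
    intro y
    constructor
    · intro h v hv
      have := h ⟨Sum.inl (v, 0), by simp, by simp⟩ ⟨v, hv, rfl⟩
      rwa [← ex_val j y] at this
    · rintro h s ⟨v, hv, e⟩
      rw [← ex_val j y, e]
      exact h v hv
  have e1 : cnt (fun x : Sl τ j => ∃ v ∈ J, x.1 = Sum.inl (v, 0)) (M.fS j) F =
      Nat.card {y : Sl τ j → F // (∀ v ∈ J, ex j y (Sum.inl (v, 0)) ≠ 0) ∧
        ∀ i, MvPolynomial.eval₂ (Int.castRingHom F) (ex j y) (M.f i) ≠ 0} := by
    unfold cnt
    refine (Nat.subtype_card _ fun y => ?_).symm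
    simp only [Finset.mem_filter, Finset.mem_univ, true_and, eval_fS, hP]
  rw [e1, ← Nat.card_eq_fintype_card, sq, mul_assoc, ← Nat.card_prod, ← Nat.card_prod]
  refine (Nat.card_congr (Equiv.ofBijective (fun z => ⟨gshift (-z.1) (-z.2.1) (ex j z.2.2.1),
    fun v hv => by rw [gshift_c]; exact z.2.2.2.1 v hv,
    fun i => by rw [hM]; exact z.2.2.2.2 i⟩) ⟨?_, ?_⟩)).symm
  · rintro ⟨n, n', y, hy⟩ ⟨m, m', z, hz⟩ h
    have h0 : gshift (-n) (-n') (ex j y) = gshift (-m) (-m') (ex j z) := congrArg Subtype.val h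
    have hc := congrFun h0 (Sum.inl (j, 0))
    have ha := congrFun h0 (Sum.inl (j, 1))
    have hd := congrFun h0 (Sum.inl (j, 2))
    rw [gshift_c, gshift_c] at hc
    rw [gshift_a, gshift_a, ex_a, ex_a, hc] at ha
    rw [gshift_d, gshift_d, ex_d, ex_d, hc] at hd
    have hn : n = m := mul_right_cancel₀ (hz.1 j hj) (by linear_combination hd)
    have hn' : n' = m' := mul_right_cancel₀ (hz.1 j hj) (by linear_combination ha)
    subst hn hn'
    have h1 := congrArg (gshift n n') h0
    rw [gshift_gshift, gshift_gshift, add_neg_cancel, add_neg_cancel, gshift_zero,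
      gshift_zero] at h1
    have : y = z := funext fun s => by rw [← ex_val j y, ← ex_val j z, h1]
    subst this
    rfl
  · rintro ⟨x, h1, h2⟩
    have hc := h1 j hj
    have e := ex_res j (gshift (x (Sum.inl (j, 2)) / x (Sum.inl (j, 0)))
      (x (Sum.inl (j, 1)) / x (Sum.inl (j, 0))) x)
      (by rw [gshift_a, div_mul_cancel₀ _ hc, sub_self])
      (by rw [gshift_d, div_mul_cancel₀ _ hc, sub_self])
    refine ⟨⟨x (Sum.inl (j, 2)) / x (Sum.inl (j, 0)), x (Sum.inl (j, 1)) / x (Sum.inl (j, 0)),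
      _, fun v hv => by rw [e, gshift_c]; exact h1 v hv, fun i => by rw [e, hM]; exact h2 i⟩,
      Subtype.ext ?_⟩
    refine (congrArg (gshift _ _) e).trans ?_
    rw [gshift_gshift, neg_add_cancel, neg_add_cancel, gshift_zero]

theorem alt (N : Finset I) :
    ∑ J ∈ (Finset.univ : Finset (Finset I)).filter (·.Nonempty),
      (-1 : ℤ) ^ (J.card - 1) * (if J ⊆ N then 1 else 0) = if N.Nonempty then 1 else 0 := by
  have h := Finset.sum_powerset_neg_one_pow_card (x := N)
  rw [← Finset.add_sum_erase _ _ (Finset.empty_mem_powerset N)] at h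
  have e : ∑ J ∈ (Finset.univ : Finset (Finset I)).filter (·.Nonempty),
      (-1 : ℤ) ^ (J.card - 1) * (if J ⊆ N then 1 else 0) =
      -∑ J ∈ N.powerset.erase ∅, (-1 : ℤ) ^ J.card := by
    simp only [mul_ite, mul_one, mul_zero]
    rw [← Finset.sum_filter, ← Finset.sum_neg_distrib]
    refine Finset.sum_congr ?_ fun J hJ => ?_
    · ext J
      simp [Finset.nonempty_iff_ne_empty]
    · obtain ⟨k, hk⟩ : ∃ k, J.card = k + 1 :=
        Nat.exists_eq_succ_of_ne_zero fun h0 =>
          (Finset.mem_erase.1 hJ).1 (Finset.card_eq_zero.1 h0)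
      rw [hk, Nat.add_sub_cancel, pow_succ]; ring
  rw [e]
  rcases N.eq_empty_or_nonempty with h0 | h0
  · rw [if_pos h0] at h
    rw [if_neg (by rw [h0]; exact Finset.not_nonempty_empty)]
    simp only [Finset.card_empty, pow_zero] at h
    linarith
  · rw [if_neg h0.ne_empty] at h
    rw [if_pos h0]
    simp only [Finset.card_empty, pow_zero] at h
    linarith

open Classical in
theorem cntAll_eq [Fintype F] (M : Model I τ ι) (P : (Var I τ → F) → Prop) [DecidablePred P] :
    (cntAll M F P : ℤ) = ∑ x ∈ Finset.univ.filter (fun x : Var I τ → F =>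
      ∀ i, MvPolynomial.eval₂ (Int.castRingHom F) x (M.f i) ≠ 0), if P x then 1 else 0 := by
  rw [Finset.sum_boole, Finset.filter_filter]
  unfold cntAll
  congr 1
  refine Nat.subtype_card _ fun x => ?_
  simp only [Finset.mem_filter, Finset.mem_univ, true_and, and_comm]

theorem sLa : SLa := by
  intro I τ ι _ _ _ _ M F _ _ hM
  classical
  unfold Model.Tc altSum
  rw [Finset.mul_sum, cntAll_eq]
  have e : ∀ J ∈ (Finset.univ : Finset (Finset I)).filter (·.Nonempty),
      (Fintype.card F : ℤ) ^ 2 * ((-1) ^ (J.card - 1) * (M.cntJ F J : ℤ)) =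
      ∑ x ∈ Finset.univ.filter (fun x : Var I τ → F =>
        ∀ i, MvPolynomial.eval₂ (Int.castRingHom F) x (M.f i) ≠ 0), (-1 : ℤ) ^ (J.card - 1) *
          (if J ⊆ Finset.univ.filter (fun v => x (Sum.inl (v, 0)) ≠ 0) then 1 else 0) := by
    intro J hJ
    have hJ' : J.Nonempty := (Finset.mem_filter.1 hJ).2
    have h1 := slice M hM J _ (J.min'_mem hJ')
    have h2 : M.cntJ F J = _ := dif_pos hJ'
    rw [← h2] at h1
    have h3 := cntAll_eq M (fun x : Var I τ → F => ∀ v ∈ J, x (Sum.inl (v, 0)) ≠ 0)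
    rw [h1] at h3
    push_cast at h3
    rw [mul_left_comm, h3, ← Finset.mul_sum]
    congr 1
    refine Finset.sum_congr rfl fun x _ => if_congr ?_ rfl rfl
    simp only [Finset.subset_iff, Finset.mem_filter, Finset.mem_univ, true_and]
  rw [Finset.sum_congr rfl e, Finset.sum_comm]
  refine Finset.sum_congr rfl fun x _ => ?_
  rw [alt]
  refine if_congr ?_ rfl rfl
  simp only [Finset.Nonempty, Finset.mem_filter, Finset.mem_univ, true_and]

end

end Pool.Agent.MP_ea150c_mp.H63La
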