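import Pool.Agent.MP_ea150c_mp.H49.SpecG
import Pool.Agent.MP_ea150c_mp.H63.La
import Pool.Agent.MP_ea150c_mp.H70.Lb
import Pool.Agent.MP_ea150c_mp.H16.Lc

/-! From the models to position space; the count of the quotient. -/

namespace Pool.Agent.MP_ea150c_mp.H63A2

open H49 H20

noncomputable section

theorem cnt_split {I τ ι : Type} [LinearOrder I] [Fintype I] [Fintype τ] [DecidableEq τ]
    (M : Model I τ ι) (F : Type) [Field F] [Fintype F] :
    (cntAll M F (fun _ => True) : ℤ) = cntAll M F (fun x => ∃ v, x (Sum.inl (v, 0)) ≠ 0) +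
      cntAll M F (fun x => ∀ v, x (Sum.inl (v, 0)) = 0) := by
  classical
  rw [H63La.cntAll_eq, H63La.cntAll_eq, H63La.cntAll_eq, ← Finset.sum_add_distrib]
  refine Finset.sum_congr rfl fun x _ => ?_
  by_cases h : ∀ v, x (Sum.inl (v, 0)) = 0
  · rw [if_pos trivial, if_pos h, if_neg fun ⟨v, hv⟩ => hv (h v), zero_add]
  · rw [if_pos trivial, if_neg h, if_pos (not_forall.1 h), add_zero]

theorem g5 : G5 := by
  intro I τ ι _ _ _ _ _ _ M h F _ _
  rw [← H63La.sLa I τ ι M F fun i n n' x => h.inv i F n n' x]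
  unfold cntAll
  congr 1
  refine Nat.subtype_card _ fun x => ?_
  simp only [Finset.mem_filter, Finset.mem_univ, true_and]

theorem a2' : A2 := by
  intro I E _ _ _ _ G hG F _ _ h
  have h1 : ∀ R S : Finset I, (Fintype.card F : ℤ) ^ 3 ∣
      (cntAll (G.model R S) F (fun _ => True) : ℤ) -
        (Fintype.card F : ℤ) ^ 2 * (G.model R S).Tc F := by
    intro R S
    obtain ⟨h2, h3⟩ := H70.sLb I E G R S F
    rw [cnt_split, H63La.sLa I _ _ (G.model R S) F h2, add_sub_cancel_left]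
    have h4 : Fintype.card F ^ 3 ∣ Fintype.card F ^ Fintype.card I :=
      pow_dvd_pow _ (le_trans (by norm_num) hG.four)
    exact_mod_cast h4.trans h3
  have h2 := H16.sLc I E G hG.noloop F
  have h3 : (Fintype.card F : ℤ) ^ 3 ∣
      ((Fintype.card F : ℤ) - 1) ^ Fintype.card I * G.N4pos F - (-1) ^ Fintype.card I *
        ((Fintype.card F : ℤ) ^ 2 * (G.model ∅ Finset.univ).Tc F) := by
    rw [h2, ← Finset.sum_product', ← Finset.add_sum_erase _ _
      (Finset.mem_product.2 ⟨Finset.empty_mem_powerset _, Finset.mem_univ _⟩ :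
        ((∅, Finset.univ) : Finset I × Finset I) ∈ _), add_sub_right_comm]
    refine dvd_add ?_ (Finset.dvd_sum fun z hz => Dvd.dvd.mul_left ?_ _)
    · simp only [Finset.card_empty, zero_add, Finset.card_univ]
      rw [← mul_sub]
      exact (h1 ∅ Finset.univ).mul_left _
    · obtain ⟨h4, h5⟩ := Finset.mem_erase.1 hz
      have h6 : z.1 ⊆ G.N0ᶜ := Finset.mem_powerset.1 (Finset.mem_product.1 h5).1
      have h7 := h z.1 z.2 (Finset.disjoint_left.2 fun v hv => Finset.mem_compl.1 (h6 hv)) h4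
      have h8 : (Fintype.card F : ℤ) ^ 3 ∣ (Fintype.card F : ℤ) ^ 2 * (G.model z.1 z.2).Tc F := by
        rw [pow_succ]
        exact mul_dvd_mul_left _ h7
      exact (dvd_sub_left h8).1 (h1 z.1 z.2)
  generalize (Fintype.card F : ℤ) = q at *
  generalize Fintype.card I = m at *
  generalize (G.N4pos F : ℤ) = N at *
  generalize (G.model ∅ Finset.univ).Tc F = T at *
  have h4 : q ∣ (q - 1) ^ m - (-1) ^ m := by
    have := sub_dvd_pow_sub_pow (q - 1) (-1) m
    rwa [show q - 1 - -1 = q by ring] at this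
  have h5 : IsCoprime (q ^ 3) ((q - 1) ^ m) :=
    IsCoprime.pow ⟨1, -1, by ring⟩
  refine h5.dvd_of_dvd_mul_left ?_
  obtain ⟨c, hc⟩ := h4
  obtain ⟨d, hd⟩ := h3
  exact ⟨d - c * T, by linear_combination hd - q ^ 2 * T * hc⟩

theorem a2 (_g5 : G5) (_a1 : A1) : A2 := a2'

end

end Pool.Agent.MP_ea150c_mp.H63A2
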